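import Pool.Agent.H566.KMs

/-!
# Project KM (helper566), task STEP: the density increment step on regular Bohr sets
-/

set_option autoImplicit false

namespace Pool.Agent.H227.KM

open Finset Pool.Agent.H566.KM
open scoped Pointwise

/-! ### Bohr sets -/

section bohr

variable {N : ℕ} [NeZero N]

private theorem psi_norm (u : ZMod N) : ‖ψ u‖ = 1 := AddChar.norm_apply ZMod.stdAddChar u

private theorem psi_add (u v : ZMod N) : ‖ψ (u + v) - 1‖ ≤ ‖ψ u - 1‖ + ‖ψ v - 1‖ := by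
  have h1 : ψ (u + v) = ψ u * ψ v := AddChar.map_add_eq_mul _ _ _
  have h2 : ψ (u + v) - 1 = (ψ u - 1) + ψ u * (ψ v - 1) := by
    rw [h1]
    ring
  rw [h2]
  refine (norm_add_le _ _).trans ?_
  rw [norm_mul, psi_norm, one_mul]

private theorem psi_neg (u : ZMod N) : ‖ψ (-u) - 1‖ = ‖ψ u - 1‖ := by
  have h1 : ψ (-u) * ψ u = 1 := by
    have h : ψ (-u + u) = ψ (-u) * ψ u := AddChar.map_add_eq_mul _ _ _
    rw [← h, neg_add_cancel]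
    exact AddChar.map_zero_eq_one _
  have h2 : ψ (-u) - 1 = ψ (-u) * (1 - ψ u) := by
    rw [mul_sub, mul_one, h1]
  rw [h2, norm_mul, psi_norm, one_mul, norm_sub_rev]

private theorem bo_mem {Λ : Finset (ZMod N)} {s : ℝ} {x : ZMod N} :
    x ∈ Bo Λ s ↔ ∀ l ∈ Λ, ‖ψ (l * x) - 1‖ ≤ s := by
  unfold Bo
  simp only [Finset.mem_filter, Finset.mem_univ, true_and]

private theorem bo_mono (Λ : Finset (ZMod N)) {s s' : ℝ} (h : s ≤ s') : Bo Λ s ⊆ Bo Λ s' :=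
  fun _ hx => bo_mem.2 fun l hl => (bo_mem.1 hx l hl).trans h

private theorem bo_zero (Λ : Finset (ZMod N)) {s : ℝ} (h : 0 ≤ s) : (0 : ZMod N) ∈ Bo Λ s := by
  refine bo_mem.2 fun l _ => ?_
  have h1 : ψ (l * 0) = 1 := by
    rw [mul_zero]
    exact AddChar.map_zero_eq_one _
  rw [h1, sub_self, norm_zero]
  exact h

private theorem bo_neg {Λ : Finset (ZMod N)} {s : ℝ} {x : ZMod N} (hx : x ∈ Bo Λ s) :
    -x ∈ Bo Λ s := by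
  refine bo_mem.2 fun l hl => ?_
  rw [mul_neg, psi_neg]
  exact bo_mem.1 hx l hl

private theorem bo_add {Λ : Finset (ZMod N)} {s s' : ℝ} {x y : ZMod N} (hx : x ∈ Bo Λ s)
    (hy : y ∈ Bo Λ s') : x + y ∈ Bo Λ (s + s') := by
  refine bo_mem.2 fun l hl => ?_
  rw [mul_add]
  exact (psi_add _ _).trans (add_le_add (bo_mem.1 hx l hl) (bo_mem.1 hy l hl))

private theorem bo_sub {Λ : Finset (ZMod N)} {s s' : ℝ} {x y : ZMod N} (hx : x ∈ Bo Λ s)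
    (hy : y ∈ Bo Λ s') : x - y ∈ Bo Λ (s + s') := by
  rw [sub_eq_add_neg]
  exact bo_add hx (bo_neg hy)

/-- regularity: size of a slightly larger Bohr set -/
private theorem rg_card {Λ : Finset (ZMod N)} {s κ : ℝ} {D : ℕ} (hD : 1 ≤ D) (hs : 0 ≤ s)
    (hκ : κ = 1 / (100 * D * (Λ.card + 1))) (h : Rg Λ s D) :
    ((Bo Λ ((1 + κ) * s)).card : ℝ) ≤ 2 * (Bo Λ s).card ∧
      (D : ℝ) * (Bo Λ ((1 + κ) * s)).card ≤ (D + 1) * (Bo Λ s).card := by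
  have hκ0 : 0 ≤ κ := by
    rw [hκ]
    positivity
  unfold Rg at h
  rw [← hκ] at h
  have h1 : ((Bo Λ ((1 - κ) * s)).card : ℝ) ≤ (Bo Λ s).card := by
    exact_mod_cast Finset.card_le_card (bo_mono Λ (by nlinarith))
  have hD' : (1 : ℝ) ≤ D := by exact_mod_cast hD
  have h2 : ((D : ℝ) + 1) * (Bo Λ ((1 - κ) * s)).card ≤ (D + 1) * (Bo Λ s).card :=
    mul_le_mul_of_nonneg_left h1 (by linarith)
  have h0 : (0 : ℝ) ≤ (Bo Λ s).card := Nat.cast_nonneg _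
  refine ⟨?_, h.trans h2⟩
  have h3 : (D : ℝ) * (Bo Λ ((1 + κ) * s)).card ≤ D * (2 * (Bo Λ s).card) := by
    refine (h.trans h2).trans ?_
    nlinarith
  exact le_of_mul_le_mul_left h3 (by linarith)

/-- regularity: shifts by elements of a small Bohr set -/
private theorem rg_ct {Λ : Finset (ZMod N)} {s κ : ℝ} {D : ℕ} (hD : 1 ≤ D) (hs : 0 ≤ s)
    (hκ : κ = 1 / (100 * D * (Λ.card + 1))) (h : Rg Λ s D) {x : ZMod N}
    (hx : x ∈ Bo Λ (κ * s)) :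
    ((Bo Λ s).card : ℝ) - ct (Bo Λ s) x ≤ 1 / D * (Bo Λ s).card := by
  have hκ0 : 0 ≤ κ := by
    rw [hκ]
    positivity
  unfold Rg at h
  rw [← hκ] at h
  have hD' : (1 : ℝ) ≤ D := by exact_mod_cast hD
  have h1 : ((Bo Λ ((1 - κ) * s)).card : ℝ) ≤ ct (Bo Λ s) x := by
    have h2 : Bo Λ ((1 - κ) * s) ⊆ (Bo Λ s).filter fun t => t + x ∈ Bo Λ s := by
      intro t ht
      rw [Finset.mem_filter]
      refine ⟨bo_mono Λ (by nlinarith) ht, ?_⟩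
      have h3 := bo_add ht hx
      refine bo_mono Λ (le_of_eq ?_) h3
      ring
    unfold ct
    exact_mod_cast Finset.card_le_card h2
  have h2 : ((Bo Λ s).card : ℝ) ≤ (Bo Λ ((1 + κ) * s)).card := by
    exact_mod_cast Finset.card_le_card (bo_mono Λ (by nlinarith))
  have h4 : (ct (Bo Λ s) x : ℝ) ≤ (Bo Λ s).card := by
    unfold ct
    exact_mod_cast Finset.card_filter_le _ _
  have h5 : (D : ℝ) * (Bo Λ s).card ≤ D * (Bo Λ ((1 + κ) * s)).card :=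
    mul_le_mul_of_nonneg_left h2 (by linarith)
  have h6 : ((D : ℝ) + 1) * (Bo Λ ((1 - κ) * s)).card ≤ (D + 1) * ct (Bo Λ s) x :=
    mul_le_mul_of_nonneg_left h1 (by linarith)
  have h7 : (D : ℝ) * (((Bo Λ s).card : ℝ) - ct (Bo Λ s) x) ≤
      D * (1 / D * (Bo Λ s).card) := by
    have h8 : (D : ℝ) * (1 / D * (Bo Λ s).card) = (Bo Λ s).card := by
      field_simp
    rw [h8]
    linarith
  exact le_of_mul_le_mul_left h7 (by linarith)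

/-! ### halved frequencies -/

private theorem dbl_mem {h : ZMod N} (hh : h * 2 = 1) {Λ : Finset (ZMod N)} {s : ℝ} {x : ZMod N}
    (hx : x ∈ Bo Λ s) : x + x ∈ Bo (Λ.image fun l => h * l) s := by
  refine bo_mem.2 fun l' hl' => ?_
  obtain ⟨l, hl, rfl⟩ := Finset.mem_image.1 hl'
  have h1 : h * l * (x + x) = l * x := by
    linear_combination (l * x) * hh
  rw [h1]
  exact bo_mem.1 hx l hl

private theorem half_mem {h : ZMod N} {Λ : Finset (ZMod N)} {s : ℝ} {y : ZMod N}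
    (hy : y ∈ Bo (Λ.image fun l => h * l) s) : h * y ∈ Bo Λ s := by
  refine bo_mem.2 fun l hl => ?_
  have h1 : l * (h * y) = h * l * y := by ring
  rw [h1]
  exact bo_mem.1 hy _ (Finset.mem_image.2 ⟨l, hl, rfl⟩)

private theorem half_card {h : ZMod N} (hh : h * 2 = 1) (Λ : Finset (ZMod N)) (s : ℝ) :
    (Bo (Λ.image fun l => h * l) s).card = (Bo Λ s).card := by
  symm
  refine Finset.card_nbij' (fun x => x + x) (fun y => h * y) (fun x hx => dbl_mem hh hx)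
    (fun y hy => half_mem hy) (fun x _ => ?_) (fun y _ => ?_)
  · show h * (x + x) = x
    linear_combination x * hh
  · show h * y + h * y = y
    linear_combination y * hh

private theorem half_sub {h : ZMod N} (hh : h * 2 = 1) {Λ : Finset (ZMod N)} {s : ℝ}
    {y : ZMod N} (hy : y ∈ Bo (Λ.image fun l => h * l) s) : y ∈ Bo Λ (2 * s) := by
  refine bo_mem.2 fun l hl => ?_
  have h1 : l * y = h * l * y + h * l * y := by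
    linear_combination -(l * y) * hh
  have h2 := bo_mem.1 hy _ (Finset.mem_image.2 ⟨l, hl, rfl⟩)
  rw [h1]
  refine (psi_add _ _).trans ?_
  linarith

omit [NeZero N] in
private theorem half_inj {h : ZMod N} (hh : h * 2 = 1) (Λ : Finset (ZMod N)) :
    (Λ.image fun l => h * l).card = Λ.card := by
  refine Finset.card_image_of_injective _ fun a b hab => ?_
  have hab : h * a = h * b := hab
  linear_combination 2 * hab - (a - b) * hh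

private theorem half_rg {h : ZMod N} (hh : h * 2 = 1) {Λ : Finset (ZMod N)} {s : ℝ} {D : ℕ}
    (hr : Rg Λ s D) : Rg (Λ.image fun l => h * l) s D := by
  unfold Rg at hr ⊢
  rw [half_inj hh, half_card hh, half_card hh]
  exact hr

end bohr

/-! ### averaging -/

/-- translates of `R` cover `A'` uniformly -/
private theorem avg1 {N : ℕ} (A A' Z R : Finset (ZMod N)) (hA : A' ⊆ A)
    (h : ∀ a ∈ A', ∀ b ∈ R, a - b ∈ Z) :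
    A'.card * R.card ≤ ∑ z ∈ Z, (A.filter fun a => a - z ∈ R).card := by
  have h1 : ∑ z ∈ Z, (A.filter fun a => a - z ∈ R).card =
      ∑ a ∈ A, (Z.filter fun z => a - z ∈ R).card := by
    simp only [Finset.card_filter]
    exact Finset.sum_comm
  rw [h1]
  refine le_trans ?_ (Finset.sum_le_sum_of_subset hA)
  rw [← smul_eq_mul]
  refine Finset.card_nsmul_le_sum _ _ _ fun a ha => ?_
  refine Finset.card_le_card_of_injOn (fun b => a - b) (fun b hb => ?_) ?_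
  · rw [Finset.mem_coe, Finset.mem_filter]
    refine ⟨h a ha b hb, ?_⟩
    have h2 : a - (a - b) = b := by ring
    rw [h2]
    exact hb
  · intro b _ b' _ hbb
    have hbb : a - b = a - b' := hbb
    linear_combination -hbb

private theorem avg2 {N : ℕ} (A A' Z R₁ R₂ : Finset (ZMod N)) (hA : A' ⊆ A) (hZ : Z.Nonempty)
    (h1 : ∀ a ∈ A', ∀ b ∈ R₁, a - b ∈ Z) (h2 : ∀ a ∈ A', ∀ b ∈ R₂, a - b ∈ Z)
    (hR₁ : R₁.Nonempty) (hR₂ : R₂.Nonempty) :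
    ∃ z : ZMod N, 2 * (A'.card : ℝ) / Z.card ≤
      ((A.filter fun a => a - z ∈ R₁).card : ℝ) / R₁.card +
        ((A.filter fun a => a - z ∈ R₂).card : ℝ) / R₂.card := by
  have hZ0 : (0 : ℝ) < Z.card := by exact_mod_cast hZ.card_pos
  have hr1 : (0 : ℝ) < R₁.card := by exact_mod_cast hR₁.card_pos
  have hr2 : (0 : ℝ) < R₂.card := by exact_mod_cast hR₂.card_pos
  have e1 : (A'.card : ℝ) ≤ ∑ z ∈ Z, ((A.filter fun a => a - z ∈ R₁).card : ℝ) / R₁.card := by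
    rw [← Finset.sum_div, le_div_iff₀ hr1]
    exact_mod_cast avg1 A A' Z R₁ hA h1
  have e2 : (A'.card : ℝ) ≤ ∑ z ∈ Z, ((A.filter fun a => a - z ∈ R₂).card : ℝ) / R₂.card := by
    rw [← Finset.sum_div, le_div_iff₀ hr2]
    exact_mod_cast avg1 A A' Z R₂ hA h2
  have e3 : ∑ _z ∈ Z, 2 * (A'.card : ℝ) / Z.card ≤
      ∑ z ∈ Z, (((A.filter fun a => a - z ∈ R₁).card : ℝ) / R₁.card +
        ((A.filter fun a => a - z ∈ R₂).card : ℝ) / R₂.card) := by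
    rw [Finset.sum_const, nsmul_eq_mul, Finset.sum_add_distrib]
    have h3 : (Z.card : ℝ) * (2 * (A'.card : ℝ) / Z.card) = 2 * A'.card := by
      field_simp
    rw [h3]
    linarith
  obtain ⟨z, -, hz⟩ := Finset.exists_le_of_sum_le hZ e3
  exact ⟨z, hz⟩

/-- the case of many solutions -/
private theorem many {N : ℕ} (A A₁ A₂ : Finset (ZMod N)) (z : ZMod N)
    (h1 : ∀ x ∈ A₁, x + z ∈ A) (h2 : ∀ x ∈ A₂, x + z ∈ A) :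
    (((A₁ ×ˢ A₁) ×ˢ A₂).filter fun q => q.1.1 + q.1.2 = q.2 + q.2).card ≤ T3 A := by
  unfold T3
  refine Finset.card_le_card_of_injOn (fun q => ((q.1.1 + z, q.1.2 + z), q.2 + z))
    (fun q hq => ?_) ?_
  · rw [Finset.mem_coe, Finset.mem_filter, Finset.mem_product, Finset.mem_product] at hq ⊢
    obtain ⟨⟨⟨h3, h4⟩, h5⟩, h6⟩ := hq
    refine ⟨⟨⟨h1 _ h3, h1 _ h4⟩, h2 _ h5⟩, ?_⟩
    show q.1.1 + z + (q.1.2 + z) = q.2 + z + (q.2 + z)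
    linear_combination h6
  · intro q _ q' _ hqq
    have e1 : q.1.1 + z = q'.1.1 + z := congrArg (fun t => t.1.1) hqq
    have e2 : q.1.2 + z = q'.1.2 + z := congrArg (fun t => t.1.2) hqq
    have e3 : q.2 + z = q'.2 + z := congrArg (fun t => t.2) hqq
    refine Prod.ext (Prod.ext (add_right_cancel e1) (add_right_cancel e2)) (add_right_cancel e3)

/-- the support of the measure in MOM -/
private theorem cor_supp {N : ℕ} [NeZero N] {D E : Finset (ZMod N)} {x : ZMod N}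
    (h : 0 < cor (EE D E) x) : ∃ d ∈ D, ∃ d' ∈ D, ∃ e ∈ E, ∃ e' ∈ E, x = d' + e' - (d + e) := by
  unfold cor at h
  obtain ⟨t, -, ht⟩ := Finset.exists_ne_zero_of_sum_ne_zero h.ne'
  have key : ∀ y : ZMod N, EE D E y ≠ 0 → ∃ d ∈ D, ∃ e ∈ E, d + e = y := by
    intro y hy
    unfold EE at hy
    have h1 : ((D ×ˢ E).filter fun p => p.1 + p.2 = y).card ≠ 0 := by
      intro hcon
      rw [hcon] at hy
      simp at hy
    obtain ⟨p, hp⟩ := Finset.card_ne_zero.1 h1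
    rw [Finset.mem_filter, Finset.mem_product] at hp
    exact ⟨p.1, hp.1.1, p.2, hp.1.2, hp.2⟩
  obtain ⟨d, hd, e, he, h1⟩ := key t (left_ne_zero_of_mul ht)
  obtain ⟨d', hd', e', he', h2⟩ := key (t + x) (right_ne_zero_of_mul ht)
  exact ⟨d, hd, d', hd', e, he, e', he', by linear_combination h1 - h2⟩

/-- the body of `S_INC` -/
private def IncC (C : ℕ) : Prop :=
  ∀ (N : ℕ) [NeZero N] (A D E X V : Finset (ZMod N)) (α : ℝ) (Q ℓ : ℕ), 0 < α → α ≤ 1 →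
    A.Nonempty → D.Nonempty → E.Nonempty → X.Nonempty → V.Nonempty → 1 ≤ ℓ → 240 ≤ Q →
    8 ≤ α ^ Q * 2 ^ ℓ →
    ((D - E + V).card : ℝ) ≤ 2 * D.card → ((X - E).card : ℝ) ≤ 2 * E.card →
    (17 / 16 * α * A.card) ^ Q ≤ ∑ x, cor (EE D E) x * (ct A x : ℝ) ^ Q →
    ∃ Λ : Finset (ZMod N), Λ.card ≤ C * ℓ ^ 4 ∧ ∀ T : Finset (ZMod N), T.Nonempty → T ⊆ V →
      (∀ x ∈ T, ∀ l ∈ Λ, ‖ψ (l * x) - 1‖ ≤ 1 / 2 ^ (C * ℓ ^ 4)) →
      (∀ x ∈ T, (X.card : ℝ) - ct X x ≤ 1 / 2 ^ (C * ℓ ^ 4) * X.card) →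
      ∃ t : ZMod N, (1 + 1 / 64) * α * T.card ≤ (A.filter fun a => a - t ∈ T).card

/-- steps (3) and (4) -/
private theorem core (hM : S_MOM) {C₁ : ℕ} (hI : IncC C₁) {N : ℕ} [NeZero N] {h : ZMod N}
    (hh : h * 2 = 1) {Λ : Finset (ZMod N)} {ℓ D : ℕ} (hℓ : 1 ≤ ℓ) (hD : D = 2 ^ (ℓ + 12)) {κ : ℝ}
    (hκ : κ = 1 / (100 * D * (Λ.card + 1))) {ρ₁ ρ₂ ρ₃ ρ₄ ρ₅ : ℝ} (p1 : 0 < ρ₁) (p2 : 0 < ρ₂)
    (p3 : 0 < ρ₃) (p4 : 0 < ρ₄) (p5 : 0 < ρ₅) (r1 : Rg Λ ρ₁ D) (r2 : Rg Λ ρ₂ D) (r3 : Rg Λ ρ₃ D)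
    (r4 : Rg Λ ρ₄ D) (q2 : 2 * ρ₂ ≤ κ * ρ₁) (q3 : 8 * ρ₃ ≤ κ * ρ₂) (q4 : 2 * ρ₄ ≤ κ * ρ₃)
    (q5 : ρ₅ ≤ κ * ρ₄) {A₁ A₂ : Finset (ZMod N)} (hA₁ : A₁ ⊆ Bo Λ ρ₁) (hA₂ : A₂ ⊆ Bo Λ ρ₂)
    {α₁ α₂ : ℝ} (ha₁ : 1 / 2 ^ (ℓ + 1) ≤ α₁) (ha₂ : 1 / 2 ^ (ℓ + 1) ≤ α₂)
    (c1 : (A₁.card : ℝ) = α₁ * (Bo Λ ρ₁).card) (c2 : (A₂.card : ℝ) = α₂ * (Bo Λ ρ₂).card)
    (hfew : ((((A₁ ×ˢ A₁) ×ˢ A₂).filter fun q => q.1.1 + q.1.2 = q.2 + q.2).card : ℝ) ≤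
      1 / 2 * α₁ * A₁.card * A₂.card) {ℓ' : ℕ} (hℓ' : ℓ' = (ℓ + 1) * (30 * (2 * ℓ + 6 + 1)) + 3) :
    ∃ Λ'' : Finset (ZMod N), Λ''.card ≤ C₁ * ℓ' ^ 4 ∧ ∀ T : Finset (ZMod N), T.Nonempty →
      T ⊆ Bo (Λ.image fun l => h * l) (κ / 2 * ρ₃) →
      (∀ x ∈ T, ∀ l ∈ Λ'', ‖ψ (l * x) - 1‖ ≤ 1 / 2 ^ (C₁ * ℓ' ^ 4)) →
      (∀ x ∈ T, ((Bo (Λ.image fun l => h * l) ρ₅).card : ℝ) -
        ct (Bo (Λ.image fun l => h * l) ρ₅) x ≤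
          1 / 2 ^ (C₁ * ℓ' ^ 4) * (Bo (Λ.image fun l => h * l) ρ₅).card) →
      ∃ t : ZMod N, (1 + 1 / 64) * α₁ * T.card ≤ (A₁.filter fun a => a - t ∈ T).card := by
  have hD1 : 1 ≤ D := by
    rw [hD]
    exact Nat.one_le_two_pow
  obtain ⟨P, hP⟩ : ∃ P : ℝ, P = 2 ^ ℓ := ⟨_, rfl⟩
  have hP2 : 2 ≤ P := by
    rw [hP]
    calc (2 : ℝ) = 2 ^ 1 := (pow_one _).symm
      _ ≤ 2 ^ ℓ := pow_le_pow_right₀ (by norm_num) hℓ
  have hDr : (D : ℝ) = P * 4096 := by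
    rw [hD, hP]
    push_cast
    rw [pow_add]
    norm_num
  have hPa : (2 : ℝ) ^ (ℓ + 1) = P * 2 := by rw [hP, pow_succ]
  rw [hPa] at ha₁ ha₂
  have hκ0 : 0 < κ := by
    rw [hκ]
    have : (1 : ℝ) ≤ D := by exact_mod_cast hD1
    positivity
  have hκ1 : κ ≤ 1 := by
    rw [hκ, div_le_one (by
      have : (1 : ℝ) ≤ D := by exact_mod_cast hD1
      positivity)]
    have h1 : (1 : ℝ) ≤ D := by exact_mod_cast hD1
    have h2 : (0 : ℝ) ≤ (Λ.card : ℝ) := Nat.cast_nonneg _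
    have h3 : (1 : ℝ) ≤ 100 * D := by linarith
    exact one_le_mul_of_one_le_of_one_le h3 (by linarith)
  have hα₁ : 0 < α₁ := lt_of_lt_of_le (by positivity) ha₁
  have hα₂ : 0 < α₂ := lt_of_lt_of_le (by positivity) ha₂
  have hB1 : (0 : ℝ) < (Bo Λ ρ₁).card := by
    exact_mod_cast Finset.card_pos.2 ⟨0, bo_zero Λ p1.le⟩
  have hA₁c : (0 : ℝ) < A₁.card := by
    rw [c1]
    positivity
  have hα₁1 : α₁ ≤ 1 := by
    have h1 : (A₁.card : ℝ) ≤ (Bo Λ ρ₁).card := by exact_mod_cast Finset.card_le_card hA₁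
    rw [c1] at h1
    exact le_of_mul_le_mul_right (by linarith) hB1
  obtain ⟨Λh, hΛh⟩ : ∃ Λh, Λh = Λ.image fun l => h * l := ⟨_, rfl⟩
  have hκh : κ = 1 / (100 * D * (Λh.card + 1)) := by
    rw [hΛh, half_inj hh]
    exact hκ
  have r2h : Rg Λh ρ₂ D := by
    rw [hΛh]
    exact half_rg hh r2
  have r3h : Rg Λh ρ₃ D := by
    rw [hΛh]
    exact half_rg hh r3
  have r4h : Rg Λh ρ₄ D := by
    rw [hΛh]
    exact half_rg hh r4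
  have k3 : κ * ρ₃ ≤ 1 * ρ₃ := mul_le_mul_of_nonneg_right hκ1 p3.le
  have k4 : κ * ρ₄ ≤ 1 * ρ₄ := mul_le_mul_of_nonneg_right hκ1 p4.le
  have k2 : κ * ρ₂ ≤ 1 * ρ₂ := mul_le_mul_of_nonneg_right hκ1 p2.le
  have hsupp : ∀ x, 0 < cor (EE (Bo Λh ρ₃) (Bo Λh ρ₄)) x → x ∈ Bo Λh (2 * ρ₃ + 2 * ρ₄) := by
    intro x hx
    obtain ⟨d, hd, d', hd', e, he, e', he', rfl⟩ := cor_supp hx
    refine bo_mono Λh (le_of_eq ?_) (bo_sub (bo_add hd' he') (bo_add hd he))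
    ring
  have m1 : (0 : ℝ) ≤ 1 / D := by positivity
  have m2 : (1 / D : ℝ) ≤ α₁ / 36 := by
    rw [hDr]
    refine le_trans ?_ (div_le_div_of_nonneg_right ha₁ (by norm_num : (0 : ℝ) ≤ 36))
    rw [div_div]
    refine one_div_le_one_div_of_le (by positivity) ?_
    linarith
  have m3 : ∀ m ∈ Bo Λ ρ₂, ((Bo Λ ρ₁).card : ℝ) - ct (Bo Λ ρ₁) (m + m) ≤
      1 / D * (Bo Λ ρ₁).card := by
    intro m hm
    refine rg_ct hD1 p1.le hκ r1 (bo_mono Λ ?_ (bo_add hm hm))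
    linarith
  have m4 : ∀ x, 0 < cor (EE (Bo Λh ρ₃) (Bo Λh ρ₄)) x →
      ((Bo Λ ρ₁).card : ℝ) - ct (Bo Λ ρ₁) x ≤ 1 / D * (Bo Λ ρ₁).card := by
    intro x hx
    have h1 := hsupp x hx
    rw [hΛh] at h1
    refine rg_ct hD1 p1.le hκ r1 (bo_mono Λ ?_ (half_sub hh h1))
    linarith
  have m5 : Set.InjOn (fun m => m + m) (Bo Λ ρ₂ : Set (ZMod N)) := by
    intro a _ b _ hab
    have hab : a + a = b + b := hab
    linear_combination h * hab - (a - b) * hh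
  have m6 : ((Bo Λh (ρ₂ + 2 * ρ₃ + 2 * ρ₄)).card : ℝ) ≤ 2 * (Bo Λ ρ₂).card := by
    have h1 : (Bo Λh (ρ₂ + 2 * ρ₃ + 2 * ρ₄)).card ≤ (Bo Λh ((1 + κ) * ρ₂)).card :=
      Finset.card_le_card (bo_mono Λh (by linarith))
    have h2 := (rg_card hD1 p2.le hκh r2h).1
    have h3 : (Bo Λh ρ₂).card = (Bo Λ ρ₂).card := by
      rw [hΛh]
      exact half_card hh Λ ρ₂
    rw [h3] at h2
    refine le_trans ?_ h2
    exact_mod_cast h1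
  have m7 : ∀ m ∈ Bo Λ ρ₂, ∀ x, 0 < cor (EE (Bo Λh ρ₃) (Bo Λh ρ₄)) x →
      m + m - x ∈ Bo Λh (ρ₂ + 2 * ρ₃ + 2 * ρ₄) := by
    intro m hm x hx
    have h1 := hsupp x hx
    have h2 : m + m ∈ Bo Λh ρ₂ := by
      rw [hΛh]
      exact dbl_mem hh hm
    refine bo_mono Λh (le_of_eq ?_) (bo_sub h2 h1)
    ring
  have m8 : (2 / 3 : ℝ) ^ (2 * ℓ + 6) ≤ α₂ / 2 := by
    have h1 : (2 / 3 : ℝ) ^ (2 * ℓ + 6) = (4 / 9) ^ (ℓ + 3) := by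
      rw [show 2 * ℓ + 6 = 2 * (ℓ + 3) by ring, pow_mul]
      norm_num
    have h2 : (4 / 9 : ℝ) ^ (ℓ + 3) ≤ (1 / 2) ^ (ℓ + 3) :=
      pow_le_pow_left₀ (by norm_num) (by norm_num) _
    have h3 : (1 / 2 : ℝ) ^ (ℓ + 3) = 1 / (P * 8) := by
      rw [div_pow, one_pow, pow_add, ← hP]
      norm_num
    have h4 : 1 / (P * 8) ≤ 1 / (P * 2) / 2 := by
      rw [div_div]
      refine one_div_le_one_div_of_le (by positivity) ?_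
      linarith
    rw [h1]
    linarith
  have m9 : Even (2 * ℓ + 6) := ⟨ℓ + 3, by ring⟩
  have m10 : 6 ≤ 2 * ℓ + 6 := by omega
  have n1 : (Bo Λ ρ₁).Nonempty := ⟨0, bo_zero Λ p1.le⟩
  have n2 : (Bo Λ ρ₂).Nonempty := ⟨0, bo_zero Λ p2.le⟩
  have n3 : (Bo Λh ρ₃).Nonempty := ⟨0, bo_zero Λh p3.le⟩
  have n4 : (Bo Λh ρ₄).Nonempty := ⟨0, bo_zero Λh p4.le⟩
  have n5 : (Bo Λh ρ₅).Nonempty := ⟨0, bo_zero Λh p5.le⟩
  have n6 : (Bo Λh (κ / 2 * ρ₃)).Nonempty := ⟨0, bo_zero Λh (by positivity)⟩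
  have n7 : A₁.Nonempty := Finset.card_pos.1 (by exact_mod_cast hA₁c)
  have hmom := hM (ZMod N) (Bo Λ ρ₁) (Bo Λ ρ₂) A₁ A₂ (Bo Λh ρ₃) (Bo Λh ρ₄)
    (Bo Λh (ρ₂ + 2 * ρ₃ + 2 * ρ₄)) α₁ α₂ (1 / D) (2 * ℓ + 6) hA₁ hA₂ n1 n2 n3 n4 hα₁ hα₂ c1 c2
    (fun x hx => bo_neg hx) m1 m2 m3 m4 m5 m6 m7 hfew m9 m10 m8
  obtain ⟨Q, hQ⟩ : ∃ Q, Q = 30 * (2 * ℓ + 6 + 1) := ⟨_, rfl⟩
  rw [← hQ] at hmom hℓ'
  have i1 : 1 ≤ ℓ' := by omega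
  have i2 : 240 ≤ Q := by omega
  have i3 : 8 ≤ α₁ ^ Q * 2 ^ ℓ' := by
    have h1 : (1 / 2 ^ (ℓ + 1) : ℝ) ^ Q ≤ α₁ ^ Q := by
      refine pow_le_pow_left₀ (by positivity) ?_ _
      rw [hPa]
      exact ha₁
    have h2 : (8 : ℝ) = (1 / 2 ^ (ℓ + 1) : ℝ) ^ Q * 2 ^ ℓ' := by
      have h3 : (2 : ℝ) ^ ((ℓ + 1) * Q + 3) = (2 ^ (ℓ + 1)) ^ Q * 8 := by
        rw [pow_add _ ((ℓ + 1) * Q) 3, pow_mul]
        norm_num
      rw [hℓ', h3, ← mul_assoc, ← mul_pow, one_div_mul_cancel (by positivity), one_pow, one_mul]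
    rw [h2]
    exact mul_le_mul_of_nonneg_right h1 (by positivity)
  have i4 : ((Bo Λh ρ₃ - Bo Λh ρ₄ + Bo Λh (κ / 2 * ρ₃)).card : ℝ) ≤ 2 * (Bo Λh ρ₃).card := by
    refine le_trans ?_ (rg_card hD1 p3.le hκh r3h).1
    have h1 : Bo Λh ρ₃ - Bo Λh ρ₄ + Bo Λh (κ / 2 * ρ₃) ⊆ Bo Λh ((1 + κ) * ρ₃) := by
      intro x hx
      obtain ⟨y, hy, v, hv, rfl⟩ := Finset.mem_add.1 hx
      obtain ⟨d, hd, e, he, rfl⟩ := Finset.mem_sub.1 hy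
      refine bo_mono Λh ?_ (bo_add (bo_sub hd he) hv)
      linarith
    exact_mod_cast Finset.card_le_card h1
  have i5 : ((Bo Λh ρ₅ - Bo Λh ρ₄).card : ℝ) ≤ 2 * (Bo Λh ρ₄).card := by
    refine le_trans ?_ (rg_card hD1 p4.le hκh r4h).1
    have h1 : Bo Λh ρ₅ - Bo Λh ρ₄ ⊆ Bo Λh ((1 + κ) * ρ₄) := by
      intro x hx
      obtain ⟨d, hd, e, he, rfl⟩ := Finset.mem_sub.1 hx
      refine bo_mono Λh ?_ (bo_sub hd he)
      linarith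
    exact_mod_cast Finset.card_le_card h1
  rw [← hΛh]
  exact hI N A₁ (Bo Λh ρ₃) (Bo Λh ρ₄) (Bo Λh ρ₅) (Bo Λh (κ / 2 * ρ₃)) α₁ Q ℓ' hα₁ hα₁1 n7 n3 n4
    n5 n6 i1 i2 i3 i4 i5 hmom

/-- the arithmetic of the sizes -/
private theorem size {ℓ C₁ d ℓ' : ℕ} (hℓ : 1 ≤ ℓ)
    (hℓ' : ℓ' = (ℓ + 1) * (30 * (2 * ℓ + 6 + 1)) + 3) :
    C₁ * ℓ' ^ 4 ≤ (C₁ * 600 ^ 4 + 118) * ℓ ^ 8 ∧
    (2048 * (100 * ((2 ^ (ℓ + 12) : ℕ) : ℝ) * (d + 1)) ^ 5 *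
      (100 * ((2 ^ (C₁ * ℓ' ^ 4) : ℕ) : ℝ) * (d + 1)) : ℝ) ≤
      2 ^ ((C₁ * 600 ^ 4 + 118) * ℓ ^ 8) * ((d : ℝ) + 1) ^ (C₁ * 600 ^ 4 + 118) := by
  have h1 : ℓ' ≤ 600 * ℓ ^ 2 := by
    rw [hℓ']
    nlinarith
  have h2 : ℓ' ^ 4 ≤ 600 ^ 4 * ℓ ^ 8 := by
    calc ℓ' ^ 4 ≤ (600 * ℓ ^ 2) ^ 4 := Nat.pow_le_pow_left h1 4
      _ = 600 ^ 4 * ℓ ^ 8 := by rw [mul_pow, ← pow_mul]
  obtain ⟨K, hK⟩ : ∃ K : ℕ, K = 600 ^ 4 := ⟨_, rfl⟩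
  rw [← hK] at h2 ⊢
  have h3 : C₁ * ℓ' ^ 4 ≤ C₁ * K * ℓ ^ 8 := by
    rw [mul_assoc]
    exact Nat.mul_le_mul_left _ h2
  have h4 : ℓ ≤ ℓ ^ 8 := Nat.le_self_pow (by norm_num) ℓ
  have h5 : (C₁ * K + 118) * ℓ ^ 8 = C₁ * K * ℓ ^ 8 + 118 * ℓ ^ 8 := by ring
  refine ⟨by omega, ?_⟩
  have hd : (1 : ℝ) ≤ (d : ℝ) + 1 := by
    have : (0 : ℝ) ≤ (d : ℝ) := Nat.cast_nonneg _
    linarith
  push_cast
  have e1 : (2048 * (100 * 2 ^ (ℓ + 12) * ((d : ℝ) + 1)) ^ 5 *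
      (100 * 2 ^ (C₁ * ℓ' ^ 4) * (d + 1)) : ℝ) ≤
      2 ^ 11 * (2 ^ 7 * 2 ^ (ℓ + 12) * ((d : ℝ) + 1)) ^ 5 *
      (2 ^ 7 * 2 ^ (C₁ * ℓ' ^ 4) * (d + 1)) := by
    have e2 : (100 * 2 ^ (ℓ + 12) * ((d : ℝ) + 1)) ≤ 2 ^ 7 * 2 ^ (ℓ + 12) * ((d : ℝ) + 1) := by
      refine mul_le_mul_of_nonneg_right (mul_le_mul_of_nonneg_right ?_ (by positivity))
        (by positivity)
      norm_num
    have e3 : (100 * 2 ^ (C₁ * ℓ' ^ 4) * ((d : ℝ) + 1)) ≤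
        2 ^ 7 * 2 ^ (C₁ * ℓ' ^ 4) * ((d : ℝ) + 1) := by
      refine mul_le_mul_of_nonneg_right (mul_le_mul_of_nonneg_right ?_ (by positivity))
        (by positivity)
      norm_num
    have e4 := pow_le_pow_left₀ (by positivity) e2 5
    refine mul_le_mul ?_ e3 (by positivity) (by positivity)
    refine mul_le_mul ?_ e4 (by positivity) (by positivity)
    norm_num
  have e5 : (2 ^ 11 * (2 ^ 7 * 2 ^ (ℓ + 12) * ((d : ℝ) + 1)) ^ 5 *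
      (2 ^ 7 * 2 ^ (C₁ * ℓ' ^ 4) * (d + 1)) : ℝ) =
      2 ^ (113 + 5 * ℓ + C₁ * ℓ' ^ 4) * ((d : ℝ) + 1) ^ 6 := by
    rw [pow_add _ ℓ 12, pow_add _ (113 + 5 * ℓ), pow_add _ 113, mul_comm 5 ℓ, pow_mul]
    ring
  refine e1.trans (e5.le.trans ?_)
  refine mul_le_mul (pow_le_pow_right₀ (by norm_num) (by omega)) (pow_le_pow_right₀ hd (by omega))
    (by positivity) (by positivity)

/-- the arithmetic of the radii -/
private theorem radii {u κ ρ ρ₁ ρ₂ ρ₃ ρ₄ ρ₅ : ℝ} (hu1 : 1 ≤ u) (hκu : u * κ = 1)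
    (a1 : κ * ρ / 2 ≤ ρ₁) (a2 : κ * ρ₁ / 2 / 2 ≤ ρ₂) (a3 : κ * ρ₂ / 8 / 2 ≤ ρ₃)
    (a4 : κ * ρ₃ / 2 / 2 ≤ ρ₄) (a5 : κ * ρ₄ / 2 ≤ ρ₅) :
    ρ ≤ 2 * u * ρ₁ ∧ ρ ≤ 8 * u ^ 2 * ρ₂ ∧ ρ ≤ 1024 * u ^ 5 * ρ₅ := by
  have hu0 : 0 ≤ u := by linarith
  have hmul : ∀ x y c : ℝ, κ * x / c ≤ y → x / c ≤ u * y := by
    intro x y c hxy
    have e1 := mul_le_mul_of_nonneg_left hxy hu0
    have e2 : u * (κ * x / c) = (u * κ) * x / c := by ring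
    rw [e2, hκu, one_mul] at e1
    exact e1
  have g1 : ρ ≤ 2 * u * ρ₁ := by
    have := hmul ρ ρ₁ 2 a1
    linarith only [this]
  have g2 : ρ₁ ≤ 4 * (u * ρ₂) := by
    have e : κ * ρ₁ / 4 ≤ ρ₂ := by linarith only [a2]
    have := hmul ρ₁ ρ₂ 4 e
    linarith only [this]
  have g3 : ρ₂ ≤ 16 * (u * ρ₃) := by
    have e : κ * ρ₂ / 16 ≤ ρ₃ := by linarith only [a3]
    have := hmul ρ₂ ρ₃ 16 e
    linarith only [this]
  have g4 : ρ₃ ≤ 4 * (u * ρ₄) := by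
    have e : κ * ρ₃ / 4 ≤ ρ₄ := by linarith only [a4]
    have := hmul ρ₃ ρ₄ 4 e
    linarith only [this]
  have g5 : ρ₄ ≤ 2 * (u * ρ₅) := by
    have := hmul ρ₄ ρ₅ 2 a5
    linarith only [this]
  have t2 : ρ ≤ 8 * u ^ 2 * ρ₂ := by
    calc ρ ≤ 2 * u * ρ₁ := g1
      _ ≤ 2 * u * (4 * (u * ρ₂)) := by gcongr
      _ = 8 * u ^ 2 * ρ₂ := by ring
  have t3 : ρ ≤ 128 * u ^ 3 * ρ₃ := by
    calc ρ ≤ 8 * u ^ 2 * ρ₂ := t2
      _ ≤ 8 * u ^ 2 * (16 * (u * ρ₃)) := by gcongr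
      _ = 128 * u ^ 3 * ρ₃ := by ring
  have t4 : ρ ≤ 512 * u ^ 4 * ρ₄ := by
    calc ρ ≤ 128 * u ^ 3 * ρ₃ := t3
      _ ≤ 128 * u ^ 3 * (4 * (u * ρ₄)) := by gcongr
      _ = 512 * u ^ 4 * ρ₄ := by ring
  have t5 : ρ ≤ 1024 * u ^ 5 * ρ₅ := by
    calc ρ ≤ 512 * u ^ 4 * ρ₄ := t4
      _ ≤ 512 * u ^ 4 * (2 * (u * ρ₅)) := by gcongr
      _ = 1024 * u ^ 5 * ρ₅ := by ring
  exact ⟨g1, t2, t5⟩

private theorem arith_u {u u₅ M : ℝ} (hu1 : 1 ≤ u) (hu51 : 1 ≤ u₅)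
    (s2 : 2048 * u ^ 5 * u₅ ≤ M) : 2 * u ≤ M ∧ 8 * u ^ 2 ≤ M := by
  have e1 : u ≤ u ^ 5 := le_self_pow₀ hu1 (by norm_num)
  have e2 : u ^ 2 ≤ u ^ 5 := pow_le_pow_right₀ hu1 (by norm_num)
  have e3 : u ^ 5 ≤ u ^ 5 * u₅ := le_mul_of_one_le_right (by positivity) hu51
  have e4 : 0 ≤ u ^ 5 := by positivity
  constructor <;> linarith

private theorem arith_many {P α₁ α₂ b1 b2 n : ℝ} (hP2 : 2 ≤ P) (l3 : 1 / P / 2 ≤ α₁)
    (l4 : 1 / P / 2 ≤ α₂) (hb2 : 0 < b2) (hb : b2 ≤ b1)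
    (hn : 1 / 2 * α₁ * (α₁ * b1) * (α₂ * b2) ≤ n) : b2 ^ 2 ≤ P ^ 8 * n := by
  have hP0 : 0 < P := by linarith
  have f1 : 1 ≤ α₁ * (2 * P) := by
    rw [div_div, div_le_iff₀ (by positivity)] at l3
    linarith
  have f2 : 1 ≤ α₂ * (2 * P) := by
    rw [div_div, div_le_iff₀ (by positivity)] at l4
    linarith
  have e6 : 1 ≤ (α₁ * (2 * P)) * (α₁ * (2 * P)) * (α₂ * (2 * P)) :=
    one_le_mul_of_one_le_of_one_le (one_le_mul_of_one_le_of_one_le f1 f1) f2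
  have e7 : b2 ^ 2 ≤ b1 * b2 := by
    rw [sq]
    exact mul_le_mul_of_nonneg_right hb hb2.le
  have hb12 : 0 ≤ b1 * b2 := mul_nonneg (by linarith) hb2.le
  have e4 : b2 ^ 2 ≤ 16 * P ^ 3 * n := by
    have e5 : 16 * P ^ 3 * (1 / 2 * α₁ * (α₁ * b1) * (α₂ * b2)) =
        ((α₁ * (2 * P)) * (α₁ * (2 * P)) * (α₂ * (2 * P))) * (b1 * b2) := by ring
    calc b2 ^ 2 ≤ b1 * b2 := e7
      _ ≤ ((α₁ * (2 * P)) * (α₁ * (2 * P)) * (α₂ * (2 * P))) * (b1 * b2) :=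
        le_mul_of_one_le_left hb12 e6
      _ = 16 * P ^ 3 * (1 / 2 * α₁ * (α₁ * b1) * (α₂ * b2)) := e5.symm
      _ ≤ 16 * P ^ 3 * n := mul_le_mul_of_nonneg_left hn (by positivity)
  have hn0 : 0 ≤ n := by
    by_contra hcon
    have h1 : 16 * P ^ 3 * n < 0 := mul_neg_of_pos_of_neg (by positivity) (not_le.1 hcon)
    have h2 : 0 < b2 ^ 2 := by positivity
    linarith
  have e8 : 16 * P ^ 3 ≤ P ^ 8 := by
    have e9 : (2 : ℝ) ^ 5 ≤ P ^ 5 := pow_le_pow_left₀ (by norm_num) hP2 5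
    have e10 : P ^ 8 = P ^ 5 * P ^ 3 := by ring
    rw [e10]
    refine mul_le_mul_of_nonneg_right ?_ (by positivity)
    linarith
  exact e4.trans (mul_le_mul_of_nonneg_right e8 hn0)

/-- step (1) -/
private theorem avg3 {N : ℕ} [NeZero N] {A Λ : Finset (ZMod N)} {ρ α ρ₁ ρ₂ κ : ℝ} {t : ZMod N}
    {D : ℕ} (hD1 : 4096 ≤ D) (hρ : 0 < ρ) (hκ : κ = 1 / (100 * D * (Λ.card + 1)))
    (hreg : Rg Λ ρ D) (hα0 : 0 < α)
    (hdens : α * (Bo Λ ρ).card ≤ (A.filter fun a => a - t ∈ Bo Λ ρ).card)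
    (p1 : 0 < ρ₁) (p2 : 0 < ρ₂) (b1 : ρ₁ ≤ κ * ρ) (b2 : ρ₂ ≤ κ * ρ) :
    ∃ z : ZMod N, 2 * α * (4095 / 4096) ≤
      ((A.filter fun a => a - z ∈ Bo Λ ρ₁).card : ℝ) / (Bo Λ ρ₁).card +
        ((A.filter fun a => a - z ∈ Bo Λ ρ₂).card : ℝ) / (Bo Λ ρ₂).card := by
  obtain ⟨A', hA'⟩ : ∃ A', A' = A.filter fun a => a - t ∈ Bo Λ ρ := ⟨_, rfl⟩
  rw [← hA'] at hdens
  have hκ0 : 0 ≤ κ := by
    rw [hκ]
    positivity
  obtain ⟨Z, hZ⟩ : ∃ Z, Z = (Bo Λ ((1 + κ) * ρ)).image fun x => x + t := ⟨_, rfl⟩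
  have hZc : Z.card = (Bo Λ ((1 + κ) * ρ)).card := by
    rw [hZ]
    exact Finset.card_image_of_injective _ (add_left_injective t)
  have hcov : ∀ s, s ≤ κ * ρ → ∀ a ∈ A', ∀ b ∈ Bo Λ s, a - b ∈ Z := by
    intro s hs a ha b hb
    rw [hA', Finset.mem_filter] at ha
    rw [hZ, Finset.mem_image]
    refine ⟨a - t - b, bo_mono Λ ?_ (bo_sub ha.2 hb), by ring⟩
    linarith
  have hZne : Z.Nonempty := by
    rw [← Finset.card_pos, hZc]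
    exact Finset.card_pos.2 ⟨0, bo_zero Λ (by positivity)⟩
  have hA'A : A' ⊆ A := by
    rw [hA']
    exact Finset.filter_subset _ _
  obtain ⟨z, hz⟩ := avg2 A A' Z (Bo Λ ρ₁) (Bo Λ ρ₂) hA'A hZne (hcov ρ₁ b1)
    (hcov ρ₂ b2) ⟨0, bo_zero Λ p1.le⟩ ⟨0, bo_zero Λ p2.le⟩
  refine ⟨z, le_trans ?_ hz⟩
  have hZ0 : (0 : ℝ) < Z.card := by exact_mod_cast hZne.card_pos
  rw [le_div_iff₀ hZ0]
  have e1 := (rg_card (by omega) hρ.le hκ hreg).2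
  rw [← hZc] at e1
  have hD4 : (4096 : ℝ) ≤ D := by exact_mod_cast hD1
  have e2 : (4095 : ℝ) * Z.card ≤ 4096 * (Bo Λ ρ).card := by
    have e3 : ((D : ℝ) + 1) * (4095 * Z.card) ≤ (D + 1) * (4096 * (Bo Λ ρ).card) := by
      nlinarith only [e1, hD4, hZ0]
    exact le_of_mul_le_mul_left e3 (by linarith)
  have e4 : α * (4095 * Z.card) ≤ α * (4096 * (Bo Λ ρ).card) :=
    mul_le_mul_of_nonneg_left e2 hα0.le
  linarith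

/-- **STEP** -/
theorem t_STEP (h1 : S_MOM) (h2 : S_INC) (h3 : S_REG) : S_STEP := by
  obtain ⟨C₁, hI⟩ : ∃ C, IncC C := h2
  refine ⟨C₁ * 600 ^ 4 + 118, ?_⟩
  intro N _ A Λ ρ α t ℓ hN hℓ hρ hρ2 hα hreg hdens
  obtain ⟨h, hh⟩ : ∃ h : ZMod N, h * 2 = 1 := by
    refine ⟨(2 : ZMod N)⁻¹, ?_⟩
    have h4 := ZMod.coe_mul_inv_eq_one (n := N) 2 (by simpa using hN)
    rw [mul_comm]
    exact_mod_cast h4
  obtain ⟨D, hD⟩ : ∃ D, D = 2 ^ (ℓ + 12) := ⟨_, rfl⟩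
  rw [← hD] at hreg
  obtain ⟨ℓ', hℓ'⟩ : ∃ ℓ', ℓ' = (ℓ + 1) * (30 * (2 * ℓ + 6 + 1)) + 3 := ⟨_, rfl⟩
  obtain ⟨D₅, hD₅⟩ : ∃ D₅, D₅ = 2 ^ (C₁ * ℓ' ^ 4) := ⟨_, rfl⟩
  obtain ⟨s1, s2⟩ := size (C₁ := C₁) (d := Λ.card) hℓ hℓ'
  rw [← hD, ← hD₅] at s2
  obtain ⟨C, hC⟩ : ∃ C, C = C₁ * 600 ^ 4 + 118 := ⟨_, rfl⟩
  rw [← hC] at s1 s2 ⊢
  clear hC
  rw [← hD]
  obtain ⟨M, hM⟩ : ∃ M : ℝ, M = 2 ^ (C * ℓ ^ 8) * ((Λ.card : ℝ) + 1) ^ C := ⟨_, rfl⟩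
  rw [← hM] at s2 ⊢
  clear hM
  have hD4 : 4096 ≤ D := by
    rw [hD, pow_add]
    have : 1 ≤ 2 ^ ℓ := Nat.one_le_two_pow
    omega
  have hD1 : 1 ≤ D := by omega
  have hD51 : 1 ≤ D₅ := by
    rw [hD₅]
    exact Nat.one_le_two_pow
  have hDr1 : (1 : ℝ) ≤ D := by exact_mod_cast hD1
  have hD5r1 : (1 : ℝ) ≤ D₅ := by exact_mod_cast hD51
  have hd0 : (0 : ℝ) ≤ (Λ.card : ℝ) := Nat.cast_nonneg _
  obtain ⟨u, hu⟩ : ∃ u : ℝ, u = 100 * D * (Λ.card + 1) := ⟨_, rfl⟩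
  obtain ⟨u₅, hu₅⟩ : ∃ u₅ : ℝ, u₅ = 100 * D₅ * (Λ.card + 1) := ⟨_, rfl⟩
  rw [← hu, ← hu₅] at s2
  have hu1 : 1 ≤ u := by
    rw [hu]
    exact one_le_mul_of_one_le_of_one_le (by linarith only [hDr1]) (by linarith only [hd0])
  have hu51 : 1 ≤ u₅ := by
    rw [hu₅]
    exact one_le_mul_of_one_le_of_one_le (by linarith only [hD5r1]) (by linarith only [hd0])
  obtain ⟨κ, hκ⟩ : ∃ κ : ℝ, κ = 1 / (100 * D * (Λ.card + 1)) := ⟨_, rfl⟩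
  obtain ⟨κ₅, hκ₅⟩ : ∃ κ : ℝ, κ = 1 / (100 * D₅ * (Λ.card + 1)) := ⟨_, rfl⟩
  have hκ0 : 0 < κ := by
    rw [hκ]
    positivity
  have hκ50 : 0 < κ₅ := by
    rw [hκ₅]
    positivity
  have hκu : u * κ = 1 := by
    rw [hκ, ← hu]
    exact mul_one_div_cancel (by linarith only [hu1])
  have hκu5 : u₅ * κ₅ = 1 := by
    rw [hκ₅, ← hu₅]
    exact mul_one_div_cancel (by linarith only [hu51])
  have hκ1 : κ ≤ 1 := by nlinarith only [hκu, hu1, hκ0]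
  have hκ51 : κ₅ ≤ 1 := by nlinarith only [hκu5, hu51, hκ50]
  obtain ⟨ρ₁, a1, b1, r1⟩ := h3 N Λ (κ * ρ) D hD1 (by positivity)
  have p1 : 0 < ρ₁ := lt_of_lt_of_le (by positivity) a1
  obtain ⟨ρ₂, a2, b2, r2⟩ := h3 N Λ (κ * ρ₁ / 2) D hD1 (by positivity)
  have p2 : 0 < ρ₂ := lt_of_lt_of_le (by positivity) a2
  obtain ⟨ρ₃, a3, b3, r3⟩ := h3 N Λ (κ * ρ₂ / 8) D hD1 (by positivity)
  have p3 : 0 < ρ₃ := lt_of_lt_of_le (by positivity) a3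
  obtain ⟨ρ₄, a4, b4, r4⟩ := h3 N Λ (κ * ρ₃ / 2) D hD1 (by positivity)
  have p4 : 0 < ρ₄ := lt_of_lt_of_le (by positivity) a4
  obtain ⟨ρ₅, a5, b5, r5⟩ := h3 N Λ (κ * ρ₄) D₅ hD51 (by positivity)
  have p5 : 0 < ρ₅ := lt_of_lt_of_le (by positivity) a5
  obtain ⟨g1, t2, t5⟩ := radii hu1 hκu a1 a2 a3 a4 a5
  obtain ⟨v1, v2⟩ := arith_u hu1 hu51 s2
  have T1 : ρ ≤ M * ρ₁ := g1.trans (mul_le_mul_of_nonneg_right v1 p1.le)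
  have T2 : ρ ≤ M * ρ₂ := t2.trans (mul_le_mul_of_nonneg_right v2 p2.le)
  have k0 : κ * ρ ≤ 1 * ρ := mul_le_mul_of_nonneg_right hκ1 hρ.le
  have k1 : κ * ρ₁ ≤ 1 * ρ₁ := mul_le_mul_of_nonneg_right hκ1 p1.le
  have k2 : κ * ρ₂ ≤ 1 * ρ₂ := mul_le_mul_of_nonneg_right hκ1 p2.le
  have k3 : κ * ρ₃ ≤ 1 * ρ₃ := mul_le_mul_of_nonneg_right hκ1 p3.le
  have k4 : κ * ρ₄ ≤ 1 * ρ₄ := mul_le_mul_of_nonneg_right hκ1 p4.le
  have w1 : ρ₁ ≤ 2 := by linarith only [b1, k0, hρ2]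
  have w2' : ρ₂ ≤ ρ₁ := by linarith only [b2, k1, p1]
  have w2 : ρ₂ ≤ 2 := by linarith only [w2', w1]
  have w3' : ρ₃ ≤ ρ₂ := by linarith only [b3, k2, p2]
  have w4' : ρ₄ ≤ ρ₃ := by linarith only [b4, k3, p3]
  have w5' : ρ₅ ≤ ρ₄ := by linarith only [b5, k4]
  have w5 : ρ₅ ≤ 2 := by linarith only [w5', w4', w3', w2]
  have w5'' : ρ₅ ≤ κ / 2 * ρ₃ := by linarith only [w5', b4]
  -- averaging
  have hP0 : (0 : ℝ) < 1 / 2 ^ ℓ := by positivity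
  have hα0 : 0 < α := lt_of_lt_of_le hP0 hα
  obtain ⟨z, hsum⟩ := avg3 hD4 hρ hκ hreg hα0 hdens p1 p2 b1 (by linarith only [w2', b1])
  obtain ⟨α₁, hα₁⟩ : ∃ α₁ : ℝ, α₁ =
    ((A.filter fun a => a - z ∈ Bo Λ ρ₁).card : ℝ) / (Bo Λ ρ₁).card := ⟨_, rfl⟩
  obtain ⟨α₂, hα₂⟩ : ∃ α₂ : ℝ, α₂ =
    ((A.filter fun a => a - z ∈ Bo Λ ρ₂).card : ℝ) / (Bo Λ ρ₂).card := ⟨_, rfl⟩
  rw [← hα₁, ← hα₂] at hsum
  have hB1 : (0 : ℝ) < (Bo Λ ρ₁).card := by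
    exact_mod_cast Finset.card_pos.2 ⟨0, bo_zero Λ p1.le⟩
  have hB2 : (0 : ℝ) < (Bo Λ ρ₂).card := by
    exact_mod_cast Finset.card_pos.2 ⟨0, bo_zero Λ p2.le⟩
  by_cases hc1 : (1 + 1 / 1024) * α ≤ α₁
  · right
    refine ⟨Λ, ρ₁, z, Nat.le_add_right _ _, T1, w1, r1, ?_⟩
    rw [hα₁, le_div_iff₀ hB1] at hc1
    exact hc1
  by_cases hc2 : (1 + 1 / 1024) * α ≤ α₂
  · right
    refine ⟨Λ, ρ₂, z, Nat.le_add_right _ _, T2, w2, r2, ?_⟩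
    rw [hα₂, le_div_iff₀ hB2] at hc2
    exact hc2
  have hc1 := not_le.1 hc1
  have hc2 := not_le.1 hc2
  have l1 : (1 - 2 / 1024) * α ≤ α₁ := by linarith only [hc2, hsum, hα0]
  have l2 : (1 - 2 / 1024) * α ≤ α₂ := by linarith only [hc1, hsum, hα0]
  have hPa : (1 : ℝ) / 2 ^ (ℓ + 1) = 1 / 2 ^ ℓ / 2 := by
    rw [pow_succ, div_div]
  have l3 : 1 / 2 ^ (ℓ + 1) ≤ α₁ := by
    rw [hPa]
    linarith only [l1, hα, hP0]
  have l4 : 1 / 2 ^ (ℓ + 1) ≤ α₂ := by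
    rw [hPa]
    linarith only [l2, hα, hP0]
  -- the sets
  have hcard : ∀ s, ((Bo Λ s).filter fun x => x + z ∈ A).card =
      (A.filter fun a => a - z ∈ Bo Λ s).card := by
    intro s
    refine Finset.card_nbij' (fun x => x + z) (fun a => a - z) (fun x hx => ?_) (fun a ha => ?_)
      (fun x _ => by show x + z - z = x; ring) (fun a _ => by show a - z + z = a; ring)
    · rw [Finset.mem_coe, Finset.mem_filter] at hx ⊢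
      refine ⟨hx.2, ?_⟩
      rw [add_sub_cancel_right]
      exact hx.1
    · rw [Finset.mem_coe, Finset.mem_filter] at ha ⊢
      refine ⟨ha.2, ?_⟩
      rw [sub_add_cancel]
      exact ha.1
  obtain ⟨A₁, hA₁⟩ : ∃ A₁, A₁ = (Bo Λ ρ₁).filter fun x => x + z ∈ A := ⟨_, rfl⟩
  obtain ⟨A₂, hA₂⟩ : ∃ A₂, A₂ = (Bo Λ ρ₂).filter fun x => x + z ∈ A := ⟨_, rfl⟩
  have c1 : (A₁.card : ℝ) = α₁ * (Bo Λ ρ₁).card := by
    rw [hα₁, div_mul_cancel₀ _ hB1.ne', hA₁, hcard]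
  have c2 : (A₂.card : ℝ) = α₂ * (Bo Λ ρ₂).card := by
    rw [hα₂, div_mul_cancel₀ _ hB2.ne', hA₂, hcard]
  have m1 : ∀ x ∈ A₁, x + z ∈ A := by
    intro x hx
    rw [hA₁, Finset.mem_filter] at hx
    exact hx.2
  have m2 : ∀ x ∈ A₂, x + z ∈ A := by
    intro x hx
    rw [hA₂, Finset.mem_filter] at hx
    exact hx.2
  have s1' : A₁ ⊆ Bo Λ ρ₁ := by
    rw [hA₁]
    exact Finset.filter_subset _ _
  have s2' : A₂ ⊆ Bo Λ ρ₂ := by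
    rw [hA₂]
    exact Finset.filter_subset _ _
  rcases lt_or_ge (1 / 2 * α₁ * A₁.card * A₂.card : ℝ)
    ((((A₁ ×ˢ A₁) ×ˢ A₂).filter fun q => q.1.1 + q.1.2 = q.2 + q.2).card : ℝ) with hmany | hfew
  · -- many solutions
    left
    refine ⟨ρ₂, T2, ?_⟩
    have e1 : ((((A₁ ×ˢ A₁) ×ˢ A₂).filter fun q => q.1.1 + q.1.2 = q.2 + q.2).card : ℝ) ≤
        T3 A := by
      exact_mod_cast many A A₁ A₂ z m1 m2
    have e2 : ((Bo Λ ρ₂).card : ℝ) ≤ (Bo Λ ρ₁).card := by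
      exact_mod_cast Finset.card_le_card (bo_mono Λ w2')
    obtain ⟨P, hP⟩ : ∃ P : ℝ, P = 2 ^ ℓ := ⟨_, rfl⟩
    have hP2 : 2 ≤ P := by
      rw [hP]
      calc (2 : ℝ) = 2 ^ 1 := (pow_one _).symm
        _ ≤ 2 ^ ℓ := pow_le_pow_right₀ (by norm_num) hℓ
    have e3 : (2 : ℝ) ^ (8 * ℓ) = P ^ 8 := by
      rw [hP, ← pow_mul, mul_comm]
    rw [hPa, ← hP] at l3 l4
    rw [e3]
    rw [c1, c2] at hmany
    exact arith_many hP2 l3 l4 hB2 e2 (hmany.le.trans e1)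
  · -- few solutions: density increment
    right
    obtain ⟨Λ'', hΛ'', hcore⟩ := core h1 hI hh hℓ hD hκ p1 p2 p3 p4 p5 r1 r2 r3 r4
      (by linarith only [b2]) (by linarith only [b3]) (by linarith only [b4]) b5 s1' s2' l3 l4
      c1 c2 hfew hℓ'
    obtain ⟨Λh, hΛh⟩ : ∃ Λh, Λh = Λ.image fun l => h * l := ⟨_, rfl⟩
    rw [← hΛh] at hcore
    have r5h : Rg Λh ρ₅ D₅ := by
      rw [hΛh]
      exact half_rg hh r5
    have hκ5h : κ₅ = 1 / (100 * D₅ * (Λh.card + 1)) := by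
      rw [hΛh, half_inj hh]
      exact hκ₅
    obtain ⟨Λ', hΛ'⟩ : ∃ Λ', Λ' = Λh ∪ Λ'' := ⟨_, rfl⟩
    obtain ⟨ρ', a6, b6, r6⟩ := h3 N Λ' (κ₅ * ρ₅) D hD1 (by positivity)
    have k5 : κ₅ * ρ₅ ≤ 1 * ρ₅ := mul_le_mul_of_nonneg_right hκ51 p5.le
    have p6 : 0 < ρ' := lt_of_lt_of_le (by positivity) a6
    have hsub : Bo Λ' ρ' ⊆ Bo Λh ρ' := by
      intro x hx
      refine bo_mem.2 fun l hl => bo_mem.1 hx l ?_
      rw [hΛ', Finset.mem_union]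
      exact Or.inl hl
    have hD5r : (2 : ℝ) ^ (C₁ * ℓ' ^ 4) = D₅ := by
      rw [hD₅, Nat.cast_pow, Nat.cast_ofNat]
    rw [hD5r] at hcore
    have hk5 : κ₅ * ρ₅ ≤ 1 / D₅ := by
      rw [hκ₅, div_mul_eq_mul_div, one_mul,
        div_le_div_iff₀ (by rw [← hu₅]; linarith only [hu51]) (by linarith only [hD5r1]), one_mul]
      have e1 : ρ₅ * D₅ ≤ 2 * D₅ := mul_le_mul_of_nonneg_right w5 (by linarith only [hD5r1])
      have e2 : 100 * (D₅ : ℝ) * 1 ≤ 100 * D₅ * (Λ.card + 1) :=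
        mul_le_mul_of_nonneg_left (by linarith only [hd0]) (by linarith only [hD5r1])
      linarith only [e1, e2, hD5r1]
    have j1 : Bo Λ' ρ' ⊆ Bo Λh (κ / 2 * ρ₃) := fun x hx =>
      bo_mono Λh (by linarith only [b6, k5, w5'']) (hsub hx)
    have j2 : ∀ x ∈ Bo Λ' ρ', ∀ l ∈ Λ'', ‖ψ (l * x) - 1‖ ≤ 1 / D₅ := by
      intro x hx l hl
      have hl' : l ∈ Λ' := by
        rw [hΛ', Finset.mem_union]
        exact Or.inr hl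
      exact (bo_mem.1 hx l hl').trans (b6.trans hk5)
    have j3 : ∀ x ∈ Bo Λ' ρ', ((Bo Λh ρ₅).card : ℝ) - ct (Bo Λh ρ₅) x ≤
        1 / D₅ * (Bo Λh ρ₅).card := fun x hx =>
      rg_ct hD51 p5.le hκ5h r5h (bo_mono Λh b6 (hsub hx))
    obtain ⟨t₁, ht₁⟩ := hcore (Bo Λ' ρ') ⟨0, bo_zero Λ' p6.le⟩ j1 j2 j3
    refine ⟨Λ', ρ', t₁ + z, ?_, ?_, by linarith only [b6, k5, w5], r6, ?_⟩
    · have e1 : Λ'.card ≤ Λh.card + Λ''.card := by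
        rw [hΛ']
        exact Finset.card_union_le _ _
      have e2 : Λh.card = Λ.card := by
        rw [hΛh, half_inj hh]
      omega
    · have e1 : ρ₅ ≤ 2 * (u₅ * ρ') := by
        have e2 := mul_le_mul_of_nonneg_left a6 (by linarith only [hu51] : (0 : ℝ) ≤ u₅)
        have e3 : u₅ * (κ₅ * ρ₅ / 2) = (u₅ * κ₅) * ρ₅ / 2 := by ring
        rw [e3, hκu5, one_mul] at e2
        linarith only [e2]
      have e4 : ρ ≤ 2048 * u ^ 5 * u₅ * ρ' := by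
        calc ρ ≤ 1024 * u ^ 5 * ρ₅ := t5
          _ ≤ 1024 * u ^ 5 * (2 * (u₅ * ρ')) :=
            mul_le_mul_of_nonneg_left e1 (by
              have : 0 ≤ u := by linarith only [hu1]
              positivity)
          _ = 2048 * u ^ 5 * u₅ * ρ' := by ring
      exact e4.trans (mul_le_mul_of_nonneg_right s2 p6.le)
    · have e1 : ((A₁.filter fun a => a - t₁ ∈ Bo Λ' ρ').card : ℝ) ≤
          (A.filter fun a => a - (t₁ + z) ∈ Bo Λ' ρ').card := by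
        have e2 : (A₁.filter fun a => a - t₁ ∈ Bo Λ' ρ').card ≤
            (A.filter fun a => a - (t₁ + z) ∈ Bo Λ' ρ').card := by
          refine Finset.card_le_card_of_injOn (fun a => a + z) (fun a ha => ?_)
            (fun a _ b _ hab => add_right_cancel (b := z) hab)
          rw [Finset.mem_coe, Finset.mem_filter] at ha ⊢
          refine ⟨m1 a ha.1, ?_⟩
          have e3 : a + z - (t₁ + z) = a - t₁ := by ring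
          rw [e3]
          exact ha.2
        exact_mod_cast e2
      refine le_trans ?_ (ht₁.trans e1)
      refine mul_le_mul_of_nonneg_right ?_ (Nat.cast_nonneg _)
      linarith only [l1, hα0]

end Pool.Agent.H227.KM
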